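import Mathlib
import Pool.Agent.H925R3.RR.Stubs

namespace Pool.Agent.H825R2.RR

open Pool.Agent.H925R3.DC Pool.Agent.H925R3.DD Pool.Agent.H925R3.RR

theorem seq (h1 : FSP) (h2 : FDB) (h3 : FEQ) (h4 : HUP) (h5 : HDB) (h6 : HCAN) (h7 : PSUB)
    (h8 : ASUB) (h9 : PDB) (h10 : PTR) : Pool.Agent.H925R3.RR.SEQ := by
  intro a b hab P hP
  obtain ⟨h, C, hpos, hht⟩ := h6 a b (h4 h1 h2 h3 a b hab) (h5 h2 h3 a b hab) h3 P hP
  obtain ⟨K, hK, hreal⟩ := h8 h1 h2 h3 a b
  have hsub : ∀ n n' : ℕ, n < n' → n' • P - n • P = (n' - n) • P := by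
    intro n n' hn
    have e : n' = (n' - n) + n := by omega
    have h1 : n' • P = (n' - n) • P + n • P := by
      rw [← add_nsmul, ← e]
    rw [h1, add_sub_cancel_right]
  have hne : ∀ n n' : ℕ, n < n' → n' • P ≠ n • P := by
    intro n n' hn he
    apply hP (n' - n) (by omega)
    rw [← hsub n n' hn, he, sub_self]
  have hneg : ∀ R : (crv ℚ (a : ℚ) (b : ℚ)).Point, xc (-R) = xc R := fun R =>
    (h3 ℚ (a : ℚ) (b : ℚ) R R).1
  have hadd : ∀ n n' : ℕ, n • P - -(n' • P) = (n + n') • P := by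
    intro n n'
    rw [sub_neg_eq_add, add_nsmul]
  refine ⟨h, C, K, ⟨hpos, hK, hht, ?_, ?_, ?_, ?_, ?_⟩⟩
  · intro p hp n n' hn hn'
    have e := h7 h1 h2 h3 a b p hp (n' • P) (n • P) (hP n' (by omega)) (hP n (by omega))
      (hne n n' hn')
    rw [hsub n n' hn', min_comm] at e
    exact e
  · intro p hp n n' hn hn'
    have e := h7 h1 h2 h3 a b p hp (n • P) (-(n' • P)) (hP n (by omega))
      (neg_ne_zero.2 (hP n' (by omega))) (by
        intro he
        apply hP (n + n') (by omega)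
        rw [add_nsmul, he, neg_add_cancel])
    rw [hadd n n', hneg] at e
    exact e
  · intro n n' hn hn'
    have e := hreal (n' • P) (n • P) (hP n' (by omega)) (hP n (by omega)) (hne n n' hn')
    rw [hsub n n' hn', min_comm] at e
    exact e
  · intro p hp hp2 n hn hd
    have e2 : (2 * n) • P = n • P + n • P := by rw [two_mul, add_nsmul]
    have e := h9 h2 a b p hp hp2 (n • P) (hP n (by omega)) (by
      rw [← e2]
      exact hP _ (by omega)) hd
    rw [← e2] at e
    exact e
  · intro p hp hp2 hp3 n hn hd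
    have e2 : (2 * n) • P = n • P + n • P := by rw [two_mul, add_nsmul]
    have e3 : (3 * n) • P = n • P + n • P + n • P := by
      rw [show 3 * n = n + n + n by ring, add_nsmul, add_nsmul]
    have e := h10 h1 h2 h3 a b p hp hp2 hp3 (n • P) (hP n (by omega)) (by
      rw [← e2]
      exact hP _ (by omega)) (by
      rw [← e3]
      exact hP _ (by omega)) hd
    rw [← e3] at e
    exact e

end Pool.Agent.H825R2.RR
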